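import Pool.Agent.helper5.LDH.Spec

/-!
# Project LDH (MP_4467b5_nt), row CL2: class two
-/

set_option autoImplicit false

open Complex MeasureTheory

namespace Pool.Agent.LDH

open Pool.Agent.helper84.DM Pool.Agent.helper78.ED Pool.Agent.DH

theorem CL2_log (A r : ℝ) (hr : 0 < r) : ∃ T₀ : ℝ, ∀ T : ℝ, T₀ ≤ T → A * Real.log T ≤ T ^ r := by
  have h1 := (isLittleO_log_rpow_atTop hr).def (c := 1 / (|A| + 1)) (by positivity)
  obtain ⟨T₀, hT₀⟩ := Filter.eventually_atTop.1 h1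
  refine ⟨max T₀ 1, fun T hT => ?_⟩
  have h2 := hT₀ T ((le_max_left _ _).trans hT)
  have hT1 : 1 ≤ T := (le_max_right _ _).trans hT
  have h3 : 0 ≤ Real.log T := Real.log_nonneg hT1
  have h4 : 0 ≤ T ^ r := Real.rpow_nonneg (by linarith) r
  rw [Real.norm_of_nonneg h3, Real.norm_of_nonneg h4] at h2
  have h5 : A ≤ |A| + 1 := (le_abs_self A).trans (by linarith)
  have h6 : 0 < |A| + 1 := by positivity
  calc A * Real.log T ≤ (|A| + 1) * Real.log T := mul_le_mul_of_nonneg_right h5 h3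
    _ ≤ (|A| + 1) * (1 / (|A| + 1) * T ^ r) := mul_le_mul_of_nonneg_left h2 h6.le
    _ = T ^ r := by field_simp

theorem CL2_dyadic (f : ℕ → ℂ) (N : ℕ) (J : ℕ) :
    ∑ n ∈ Finset.Ioc N (2 ^ J * N), f n
      = ∑ j ∈ Finset.range J, ∑ n ∈ Finset.Ioc (2 ^ j * N) (2 * (2 ^ j * N)), f n := by
  induction J with
  | zero => simp
  | succ J ih =>
    rw [Finset.sum_range_succ, ← ih]
    have h1 : 2 ^ (J + 1) * N = 2 * (2 ^ J * N) := by ring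
    rw [h1, Finset.sum_Ioc_consecutive]
    · exact Nat.le_mul_of_pos_left N (by positivity)
    · omega

theorem CL2_L {T : ℝ} (hT : 3 ≤ T) : 1 ≤ Real.log T := by
  rw [Real.le_log_iff_exp_le (by linarith)]
  have := Real.exp_one_lt_d9
  linarith

theorem CL2_J {T : ℝ} {Y J : ℕ} (hT : 3 ≤ T) (hY : 1 ≤ Y) (h : (2 : ℝ) ^ J * Y ≤ 2 * T ^ 2) :
    (J : ℝ) ≤ 4 * Real.log T := by
  have hL := CL2_L hT
  have hY' : (1 : ℝ) ≤ Y := by exact_mod_cast hY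
  have h1 : (2 : ℝ) ^ J ≤ 2 * T ^ 2 := by
    have h2 : (0 : ℝ) < 2 ^ J := by positivity
    calc (2 : ℝ) ^ J = 2 ^ J * 1 := by ring
      _ ≤ 2 ^ J * Y := mul_le_mul_of_nonneg_left hY' h2.le
      _ ≤ 2 * T ^ 2 := h
  have h2 := Real.log_le_log (by positivity) h1
  rw [Real.log_pow, Real.log_mul (by norm_num) (by positivity), Real.log_pow] at h2
  push_cast at h2
  have h3 := Real.log_two_gt_d9
  have h4 := Real.log_two_lt_d9
  by_contra h5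
  push Not at h5
  have h6 : 4 * Real.log T * Real.log 2 < J * Real.log 2 := mul_lt_mul_of_pos_right h5 (by linarith)
  have h7 : 4 * Real.log T * 0.6931471803 ≤ 4 * Real.log T * Real.log 2 :=
    mul_le_mul_of_nonneg_left h3.le (by linarith)
  linarith

theorem CL2_num {N H σ : ℝ} (hH : 0 < H) (hN : H / 2 ≤ N) (hσ1 : 3 / 4 ≤ σ) (hσ2 : σ ≤ 1) :
    N ^ (3 / 2 - 2 * σ) * H ^ (1 / 2 : ℝ) ≤ 2 * H ^ (2 * (1 - σ)) := by
  have h1 : N ^ (3 / 2 - 2 * σ) ≤ (H / 2) ^ (3 / 2 - 2 * σ) :=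
    Real.rpow_le_rpow_of_nonpos (by positivity) hN (by linarith)
  have h2 : (H / 2) ^ (3 / 2 - 2 * σ) ≤ 2 * H ^ (3 / 2 - 2 * σ) := by
    rw [Real.div_rpow hH.le (by norm_num), div_eq_mul_inv, ← Real.rpow_neg (by norm_num), mul_comm]
    refine mul_le_mul_of_nonneg_right ?_ (Real.rpow_nonneg hH.le _)
    calc (2 : ℝ) ^ (-(3 / 2 - 2 * σ)) ≤ (2 : ℝ) ^ (1 : ℝ) :=
          Real.rpow_le_rpow_of_exponent_le (by norm_num) (by linarith)
      _ = 2 := Real.rpow_one 2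
  calc N ^ (3 / 2 - 2 * σ) * H ^ (1 / 2 : ℝ) ≤ (2 * H ^ (3 / 2 - 2 * σ)) * H ^ (1 / 2 : ℝ) :=
        mul_le_mul_of_nonneg_right (h1.trans h2) (Real.rpow_nonneg hH.le _)
    _ = 2 * (H ^ (3 / 2 - 2 * σ) * H ^ (1 / 2 : ℝ)) := by ring
    _ = 2 * H ^ (2 * (1 - σ)) := by
        rw [← Real.rpow_add hH]
        refine congrArg (fun x => 2 * H ^ x) ?_
        ring

theorem CL2_card {c C₂ N H T σ δ : ℝ} (hC : 0 < C₂) (hT : 0 < T) (hH : 0 < H) (hN0 : 0 < N) (hN : H / 2 ≤ N)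
    (hσ1 : 3 / 4 ≤ σ) (hσ2 : σ ≤ 1)
    (h : c * (N ^ σ * T ^ (-(2 * (2 * δ)))) ^ 2 ≤ C₂ * (N ^ (3 / 2 : ℝ) * H ^ (1 / 2 : ℝ))) :
    c ≤ 2 * C₂ * T ^ (8 * δ) * H ^ (2 * (1 - σ)) := by
  have h1 : (N ^ σ * T ^ (-(2 * (2 * δ)))) ^ 2 = N ^ (2 * σ) * T ^ (-(8 * δ)) := by
    rw [mul_pow, ← Real.rpow_natCast (N ^ σ), ← Real.rpow_mul hN0.le, ← Real.rpow_natCast (T ^ _), ← Real.rpow_mul hT.le]
    refine congrArg₂ (fun x y => N ^ x * T ^ y) ?_ ?_ <;> push_cast <;> ring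
  rw [h1] at h
  have h2 : N ^ (-(2 * σ)) * T ^ (8 * δ) * (N ^ (2 * σ) * T ^ (-(8 * δ))) = 1 := by
    have e1 : N ^ (-(2 * σ)) * N ^ (2 * σ) = 1 := by
      rw [← Real.rpow_add hN0, neg_add_cancel, Real.rpow_zero]
    have e2 : T ^ (8 * δ) * T ^ (-(8 * δ)) = 1 := by
      rw [← Real.rpow_add hT, add_neg_cancel, Real.rpow_zero]
    calc _ = (N ^ (-(2 * σ)) * N ^ (2 * σ)) * (T ^ (8 * δ) * T ^ (-(8 * δ))) := by ring
      _ = 1 := by rw [e1, e2, one_mul]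
  have h3 : (0 : ℝ) ≤ N ^ (-(2 * σ)) * T ^ (8 * δ) :=
    mul_nonneg (Real.rpow_nonneg hN0.le _) (Real.rpow_nonneg hT.le _)
  calc c = (N ^ (-(2 * σ)) * T ^ (8 * δ)) * (c * (N ^ (2 * σ) * T ^ (-(8 * δ)))) := by
        rw [mul_comm c, ← mul_assoc, h2, one_mul]
    _ ≤ (N ^ (-(2 * σ)) * T ^ (8 * δ)) * (C₂ * (N ^ (3 / 2 : ℝ) * H ^ (1 / 2 : ℝ))) :=
        mul_le_mul_of_nonneg_left h h3
    _ = C₂ * T ^ (8 * δ) * ((N ^ (3 / 2 : ℝ) * N ^ (-(2 * σ))) * H ^ (1 / 2 : ℝ)) := by ring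
    _ = C₂ * T ^ (8 * δ) * (N ^ (3 / 2 - 2 * σ) * H ^ (1 / 2 : ℝ)) := by
        rw [← Real.rpow_add hN0, ← sub_eq_add_neg]
    _ ≤ C₂ * T ^ (8 * δ) * (2 * H ^ (2 * (1 - σ))) :=
        mul_le_mul_of_nonneg_left (CL2_num hH hN hσ1 hσ2) (mul_nonneg hC.le (Real.rpow_nonneg hT.le _))
    _ = 2 * C₂ * T ^ (8 * δ) * H ^ (2 * (1 - σ)) := by ring

theorem CL2_big {C₁ T N : ℝ} {r : ℝ} (hC : 0 < C₁) (hT : 3 ≤ T) (hN1 : 1 ≤ N) (hN : N ≤ 2 * T ^ 2) (hr : 3 / 4 ≤ r) (hr2 : r ≤ 1) :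
    C₁ * (N ^ (1 - r) / T) ≤ 2 * C₁ * T ^ (-(1 / 2) : ℝ) := by
  have hT0 : 0 < T := by linarith
  have h1 : N ^ (1 - r) ≤ 2 * T ^ (1 / 2 : ℝ) := by
    calc N ^ (1 - r) ≤ N ^ (1 / 4 : ℝ) := Real.rpow_le_rpow_of_exponent_le hN1 (by linarith)
      _ ≤ (2 * T ^ 2) ^ (1 / 4 : ℝ) := Real.rpow_le_rpow (by linarith) hN (by norm_num)
      _ = (2 : ℝ) ^ (1 / 4 : ℝ) * T ^ (1 / 2 : ℝ) := by
          rw [Real.mul_rpow (by norm_num) (by positivity), ← Real.rpow_natCast T, ← Real.rpow_mul hT0.le]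
          refine congrArg (fun x => (2 : ℝ) ^ (1 / 4 : ℝ) * T ^ x) ?_
          norm_num
      _ ≤ 2 * T ^ (1 / 2 : ℝ) := by
          refine mul_le_mul_of_nonneg_right ?_ (Real.rpow_nonneg hT0.le _)
          calc (2 : ℝ) ^ (1 / 4 : ℝ) ≤ (2 : ℝ) ^ (1 : ℝ) := Real.rpow_le_rpow_of_exponent_le (by norm_num) (by norm_num)
            _ = 2 := Real.rpow_one 2
  have h2 : T ^ (-(1 / 2) : ℝ) = T ^ (1 / 2 : ℝ) / T := by
    rw [eq_div_iff hT0.ne']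
    nth_rewrite 2 [← Real.rpow_one T]
    rw [← Real.rpow_add hT0]
    refine congrArg (fun x => T ^ x) ?_
    norm_num
  rw [h2]
  calc C₁ * (N ^ (1 - r) / T) ≤ C₁ * ((2 * T ^ (1 / 2 : ℝ)) / T) :=
        mul_le_mul_of_nonneg_left (div_le_div_of_nonneg_right h1 hT0.le) hC.le
    _ = 2 * C₁ * (T ^ (1 / 2 : ℝ) / T) := by ring

theorem CL2 (hKLZ : KLZ_stmt) (hTAZ : TAZ_stmt) (hMVW : MVW_stmt) : CL2_stmt := by
  classical
  obtain ⟨C₁, hC₁, hK⟩ := hKLZ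
  obtain ⟨C₂, hC₂, hM⟩ := hMVW
  intro δ hδ hδ'
  obtain ⟨T₁, hT₁⟩ := hTAZ (2 * δ) (by linarith) (by linarith)
  obtain ⟨T₂, hT₂⟩ := CL2_log 32 δ hδ
  obtain ⟨T₃, hT₃⟩ := CL2_log (64 * C₁) (1 / 4) (by norm_num)
  refine ⟨2 * C₂, max (max 3 T₁) (max T₂ T₃), by positivity, ?_⟩
  intro T H σ hT hH1 hHT hσ1 hσ2 Y J hY hYT hJ1 hJ2 W hW hsep hbig
  have hT3 : 3 ≤ T := ((le_max_left _ _).trans (le_max_left _ _)).trans hT
  have hTT1 : T₁ ≤ T := ((le_max_right _ _).trans (le_max_left _ _)).trans hT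
  have hL2 := hT₂ T (((le_max_left _ _).trans (le_max_right _ _)).trans hT)
  have hL3 := hT₃ T (((le_max_right _ _).trans (le_max_right _ _)).trans hT)
  have hT0 : 0 < T := by linarith
  have hT1 : 1 ≤ T := by linarith
  have hL := CL2_L hT3
  have hH0 : 1 ≤ H := by
    have h1 : (1 : ℝ) ≤ T ^ (1 / 4 : ℝ) := Real.one_le_rpow hT1 (by norm_num)
    linarith
  have hY1 : 1 ≤ Y := by
    rcases Nat.eq_zero_or_pos Y with h0 | h0
    · rw [h0, Nat.cast_zero] at hY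
      linarith
    · exact h0
  have hJ := CL2_J hT3 hY1 hJ2
  -- the blocks
  have hNle : ∀ i ∈ Finset.range J, (((2 ^ i * Y : ℕ) : ℝ)) ≤ 2 * T ^ 2 := by
    intro i hi
    refine le_trans ?_ hJ2
    push_cast
    exact mul_le_mul_of_nonneg_right (pow_le_pow_right₀ (by norm_num) (Finset.mem_range.1 hi).le) (Nat.cast_nonneg _)
  have hNge : ∀ i : ℕ, Y ≤ 2 ^ i * Y := fun i => Nat.le_mul_of_pos_left Y (by positivity)
  -- every zero is detected by a short block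
  have hdet : ∀ ρ ∈ W, ∃ i ∈ Finset.range J, (((2 ^ i * Y : ℕ) : ℝ)) < T ∧
      T ^ (-(2 * δ)) ≤ ‖∑ n ∈ Finset.Ioc (2 ^ i * Y) (2 * (2 ^ i * Y)), (n : ℂ) ^ (-ρ)‖ := by
    intro ρ hρ
    by_contra hcon
    push Not at hcon
    obtain ⟨w1, w2, w3, w4⟩ := hW ρ hρ
    have h1 : ∀ i ∈ Finset.range J, ‖∑ n ∈ Finset.Ioc (2 ^ i * Y) (2 * (2 ^ i * Y)), (n : ℂ) ^ (-ρ)‖ ≤
        T ^ (-(2 * δ)) + 2 * C₁ * T ^ (-(1 / 2) : ℝ) := by
      intro i hi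
      have p1 : 0 ≤ T ^ (-(2 * δ)) := Real.rpow_nonneg hT0.le _
      have p2 : 0 ≤ 2 * C₁ * T ^ (-(1 / 2) : ℝ) := mul_nonneg (by positivity) (Real.rpow_nonneg hT0.le _)
      rcases lt_or_ge (((2 ^ i * Y : ℕ) : ℝ)) T with h2 | h2
      · have h3 := hcon i hi h2
        linarith
      · have h3 := hK T (2 ^ i * Y) (2 * (2 ^ i * Y)) ρ hT1 h2 (by omega) le_rfl (by linarith) w2 w3 (by linarith)
        have h4 := CL2_big hC₁ hT3 (N := ((2 ^ i * Y : ℕ) : ℝ)) (r := ρ.re) (hT1.trans h2) (hNle i hi) (by linarith) w2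
        linarith
    have h2 : ‖∑ n ∈ Finset.Ioc Y (2 ^ J * Y), (n : ℂ) ^ (-ρ)‖ ≤
        J * (T ^ (-(2 * δ)) + 2 * C₁ * T ^ (-(1 / 2) : ℝ)) := by
      rw [CL2_dyadic]
      refine (norm_sum_le _ _).trans ((Finset.sum_le_sum h1).trans ?_)
      rw [Finset.sum_const, Finset.card_range, nsmul_eq_mul]
    have h3 := hbig ρ hρ
    have q0 : 0 < T ^ δ := Real.rpow_pos_of_pos hT0 _
    have h4 : T ^ δ * ‖∑ n ∈ Finset.Ioc Y (2 ^ J * Y), (n : ℂ) ^ (-ρ)‖ ≤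
        T ^ δ * ((4 * Real.log T) * (T ^ (-(2 * δ)) + 2 * C₁ * T ^ (-(1 / 2) : ℝ))) := by
      refine mul_le_mul_of_nonneg_left (h2.trans (mul_le_mul_of_nonneg_right hJ ?_)) q0.le
      exact add_nonneg (Real.rpow_nonneg hT0.le _) (mul_nonneg (by positivity) (Real.rpow_nonneg hT0.le _))
    have e1 : T ^ δ * T ^ (-(2 * δ)) = T ^ (-δ) := by
      rw [← Real.rpow_add hT0]
      refine congrArg (fun x => T ^ x) ?_
      ring
    have e2 : T ^ δ * T ^ (-(1 / 2) : ℝ) = T ^ (δ - 1 / 2) := by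
      rw [← Real.rpow_add hT0]
      refine congrArg (fun x => T ^ x) ?_
      ring
    have h5 : T ^ δ * ((4 * Real.log T) * (T ^ (-(2 * δ)) + 2 * C₁ * T ^ (-(1 / 2) : ℝ))) =
        (1 / 8) * ((32 * Real.log T) * T ^ (-δ)) + (1 / 8) * ((64 * C₁ * Real.log T) * T ^ (δ - 1 / 2)) := by
      rw [← e1, ← e2]
      ring
    have h6 : (32 * Real.log T) * T ^ (-δ) ≤ 1 := by
      calc (32 * Real.log T) * T ^ (-δ) ≤ T ^ δ * T ^ (-δ) := mul_le_mul_of_nonneg_right hL2 (Real.rpow_nonneg hT0.le _)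
        _ = 1 := by rw [← Real.rpow_add hT0, add_neg_cancel, Real.rpow_zero]
    have h7 : (64 * C₁ * Real.log T) * T ^ (δ - 1 / 2) < 1 := by
      calc (64 * C₁ * Real.log T) * T ^ (δ - 1 / 2) ≤ T ^ (1 / 4 : ℝ) * T ^ (δ - 1 / 2) :=
            mul_le_mul_of_nonneg_right hL3 (Real.rpow_nonneg hT0.le _)
        _ = T ^ (1 / 4 + (δ - 1 / 2)) := (Real.rpow_add hT0 _ _).symm
        _ < 1 := Real.rpow_lt_one_of_one_lt_of_neg (by linarith) (by linarith)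
    rw [h5] at h4
    linarith
  -- the classes
  set P : Finset (ℕ × ℕ) := Finset.range J ×ˢ Finset.range (⌊16 * Real.log T⌋₊ + 1) with hP
  set V : ℕ × ℕ → Finset ℂ := fun q => W.filter fun ρ => (((2 ^ q.1 * Y : ℕ) : ℝ)) < T ∧
    ((2 ^ q.1 * Y : ℕ) : ℝ) ^ σ * T ^ (-(2 * (2 * δ))) ≤
      ‖DP (2 ^ q.1 * Y) (fun n => ((ww (2 ^ q.1 * Y) σ q.2 n : ℝ) : ℂ)) ρ.im‖ with hV
  have hcov : W ⊆ P.biUnion V := by
    intro ρ hρ
    obtain ⟨i, hi, h1, h2⟩ := hdet ρ hρ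
    obtain ⟨w1, w2, w3, w4⟩ := hW ρ hρ
    obtain ⟨j, hj, h3⟩ := hT₁ T hTT1 σ (fun _ => 1) (2 ^ i * Y) ρ (by linarith) (hY1.trans (hNge i)) (by nlinarith)
      (fun n _ => by
        rw [norm_one]
        exact Real.one_le_rpow hT1 (by linarith)) w1 w2 (by
        simp only [one_mul]
        exact h2)
    simp only [one_mul] at h3
    refine Finset.mem_biUnion.2 ⟨(i, j), Finset.mem_product.2 ⟨hi, hj⟩, ?_⟩
    exact Finset.mem_filter.2 ⟨hρ, h1, h3⟩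
  have hcardV : ∀ q ∈ P, ((V q).card : ℝ) ≤ 2 * C₂ * T ^ (8 * δ) * H ^ (2 * (1 - σ)) := by
    intro q hq
    have hVW : V q ⊆ W := Finset.filter_subset _ _
    rcases (V q).eq_empty_or_nonempty with h0 | ⟨ρ₀, hρ₀⟩
    · rw [h0, Finset.card_empty, Nat.cast_zero]
      have p1 : 0 ≤ T ^ (8 * δ) := Real.rpow_nonneg hT0.le _
      have p2 : 0 ≤ H ^ (2 * (1 - σ)) := Real.rpow_nonneg (by linarith) _
      positivity
    · have hNT : (((2 ^ q.1 * Y : ℕ) : ℝ)) < T := (Finset.mem_filter.1 hρ₀).2.1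
      have hYN : (Y : ℝ) ≤ ((2 ^ q.1 * Y : ℕ) : ℝ) := by exact_mod_cast hNge q.1
      have hY0 : (1 : ℝ) ≤ Y := by exact_mod_cast hY1
      have hinj : Set.InjOn Complex.im (V q : Set ℂ) := by
        intro ρ hρ ρ' hρ' he
        by_contra hne
        have h1 := hsep ρ (hVW hρ) ρ' (hVW hρ') hne
        rw [he, sub_self, abs_zero] at h1
        linarith
      have h1 := hM T H σ (2 ^ q.1 * Y) q.2 ((V q).image Complex.im) hT1 hH1 hHT (by linarith) (by linarith) hNT.le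
        (by
          intro t ht
          obtain ⟨ρ, hρ, rfl⟩ := Finset.mem_image.1 ht
          exact ⟨(hW ρ (hVW hρ)).2.2.1, (hW ρ (hVW hρ)).2.2.2⟩)
        (by
          intro s hs s' hs' hne
          obtain ⟨ρ, hρ, rfl⟩ := Finset.mem_image.1 hs
          obtain ⟨ρ', hρ', rfl⟩ := Finset.mem_image.1 hs'
          exact hsep ρ (hVW hρ) ρ' (hVW hρ') fun h => hne (by rw [h]))
      rw [Finset.sum_image hinj] at h1
      have h2 : ((V q).card : ℝ) * (((2 ^ q.1 * Y : ℕ) : ℝ) ^ σ * T ^ (-(2 * (2 * δ)))) ^ 2 ≤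
          ∑ ρ ∈ V q, ‖DP (2 ^ q.1 * Y) (fun n => ((ww (2 ^ q.1 * Y) σ q.2 n : ℝ) : ℂ)) ρ.im‖ ^ 2 := by
        rw [← nsmul_eq_mul]
        refine Finset.card_nsmul_le_sum _ _ _ fun ρ hρ => ?_
        refine pow_le_pow_left₀ ?_ (Finset.mem_filter.1 hρ).2.2 2
        exact mul_nonneg (Real.rpow_nonneg (Nat.cast_nonneg _) _) (Real.rpow_nonneg hT0.le _)
      exact CL2_card hC₂ hT0 (by linarith) (by linarith) (by linarith) hσ1 hσ2 (h2.trans h1)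
  have hcard : (W.card : ℝ) ≤ P.card * (2 * C₂ * T ^ (8 * δ) * H ^ (2 * (1 - σ))) := by
    have h1 : (W.card : ℝ) ≤ ∑ q ∈ P, ((V q).card : ℝ) := by
      have h2 : W.card ≤ ∑ q ∈ P, (V q).card := (Finset.card_le_card hcov).trans Finset.card_biUnion_le
      exact_mod_cast h2
    refine h1.trans ((Finset.sum_le_sum hcardV).trans ?_)
    rw [Finset.sum_const, nsmul_eq_mul]
  have hPc : (P.card : ℝ) ≤ T ^ (2 * δ) := by
    rw [hP, Finset.card_product, Finset.card_range, Finset.card_range]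
    push_cast
    have h1 : (⌊16 * Real.log T⌋₊ : ℝ) ≤ 16 * Real.log T := Nat.floor_le (by linarith)
    have h2 : T ^ (2 * δ) = T ^ δ * T ^ δ := by
      rw [← Real.rpow_add hT0]
      refine congrArg (fun x => T ^ x) ?_
      ring
    rw [h2]
    calc (J : ℝ) * ((⌊16 * Real.log T⌋₊ : ℝ) + 1) ≤ (32 * Real.log T) * (32 * Real.log T) := by
          refine mul_le_mul (by linarith) (by linarith) (by positivity) (by linarith)
      _ ≤ T ^ δ * T ^ δ := mul_le_mul hL2 hL2 (by linarith) (Real.rpow_nonneg hT0.le _)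
  have hfin : (P.card : ℝ) * (2 * C₂ * T ^ (8 * δ) * H ^ (2 * (1 - σ))) ≤
      2 * C₂ * T ^ (10 * δ) * H ^ (2 * (1 - σ)) := by
    have p2 : 0 ≤ H ^ (2 * (1 - σ)) := Real.rpow_nonneg (by linarith) _
    have p1 : 0 ≤ T ^ (8 * δ) := Real.rpow_nonneg hT0.le _
    have e1 : T ^ (10 * δ) = T ^ (2 * δ) * T ^ (8 * δ) := by
      rw [← Real.rpow_add hT0]
      refine congrArg (fun x => T ^ x) ?_
      ring
    calc (P.card : ℝ) * (2 * C₂ * T ^ (8 * δ) * H ^ (2 * (1 - σ))) ≤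
          T ^ (2 * δ) * (2 * C₂ * T ^ (8 * δ) * H ^ (2 * (1 - σ))) :=
          mul_le_mul_of_nonneg_right hPc (by positivity)
      _ = 2 * C₂ * T ^ (10 * δ) * H ^ (2 * (1 - σ)) := by rw [e1]; ring
  exact hcard.trans hfin

end Pool.Agent.LDH
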